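import Pool.Agent.H99.BR.Bas

/-!
# Project BR, block GEO-G: projections, frames, centres of triangles
-/

set_option autoImplicit false

open Real

namespace Pool.Agent.Helper53.BR

open Pool.Agent.Helper11.BR
open Pool.Agent.H99.BR

variable {G : Type} [Group G] [TopologicalSpace G] (Γ : R1 G)

/-! ### the projection -/

open Classical in
/-- the parameter of the projection of the end of `g` to the line of `n`, cut to `[α, β]` -/
noncomputable def prj (α β : ℝ) (n g : G) : ℝ :=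
  max α (min β (if Γ.gam (n⁻¹ * g) = 0 then β
    else if Γ.gam ((n * Γ.flip)⁻¹ * g) = 0 then α else Γ.prm n g))

theorem prj_mem {α β : ℝ} (h : α ≤ β) (n g : G) : α ≤ prj Γ α β n g ∧ prj Γ α β n g ≤ β := by
  unfold prj
  exact ⟨le_max_left _ _, max_le h (min_le_left _ _)⟩

theorem prj_ahead (α β b : ℝ) (n g : G) (h1 : α < b) (h3 : b ≤ prj Γ α β n g) :
    Γ.Ahead n b g := by
  unfold prj at h3
  unfold R1.Ahead
  have h4 : b ≤ min β (if Γ.gam (n⁻¹ * g) = 0 then β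
    else if Γ.gam ((n * Γ.flip)⁻¹ * g) = 0 then α else Γ.prm n g) := by
    rcases le_max_iff.1 h3 with h | h
    · exact absurd h (not_le.2 h1)
    · exact h
  have h5 := h4.trans (min_le_right _ _)
  split_ifs at h5 with hy hx
  · rw [hy, mul_zero]
    exact Γ.gam_nonneg _
  · exact absurd h5 (not_le.2 h1)
  · have hy' : 0 < Γ.gam (n⁻¹ * g) := lt_of_le_of_ne (Γ.gam_nonneg _) (Ne.symm hy)
    have hx' : 0 < Γ.gam ((n * Γ.flip)⁻¹ * g) := lt_of_le_of_ne (Γ.gam_nonneg _) (Ne.symm hx)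
    unfold R1.prm at h5
    have h6 : 2 * b ≤ log (Γ.gam ((n * Γ.flip)⁻¹ * g) / Γ.gam (n⁻¹ * g)) := by linarith
    rwa [le_log_iff_exp_le (by positivity), le_div_iff₀ hy'] at h6

theorem prj_behind (α β a : ℝ) (n g : G) (h2 : a < β) (h3 : prj Γ α β n g ≤ a) :
    Γ.Behind n a g := by
  unfold prj at h3
  unfold R1.Behind
  have h4 : min β (if Γ.gam (n⁻¹ * g) = 0 then β
    else if Γ.gam ((n * Γ.flip)⁻¹ * g) = 0 then α else Γ.prm n g) ≤ a := (le_max_right _ _).trans h3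
  have h5 : (if Γ.gam (n⁻¹ * g) = 0 then β
    else if Γ.gam ((n * Γ.flip)⁻¹ * g) = 0 then α else Γ.prm n g) ≤ a := by
    rcases min_le_iff.1 h4 with h | h
    · exact absurd h (not_le.2 h2)
    · exact h
  split_ifs at h5 with hy hx
  · exact absurd h5 (not_le.2 h2)
  · rw [hx]
    exact mul_nonneg (exp_pos _).le (Γ.gam_nonneg _)
  · have hy' : 0 < Γ.gam (n⁻¹ * g) := lt_of_le_of_ne (Γ.gam_nonneg _) (Ne.symm hy)
    have hx' : 0 < Γ.gam ((n * Γ.flip)⁻¹ * g) := lt_of_le_of_ne (Γ.gam_nonneg _) (Ne.symm hx)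
    unfold R1.prm at h5
    have h6 : log (Γ.gam ((n * Γ.flip)⁻¹ * g) / Γ.gam (n⁻¹ * g)) ≤ 2 * a := by linarith
    rwa [log_le_iff_le_exp (by positivity), div_le_iff₀ hy'] at h6

theorem prj_cp (α β α' β' : ℝ) (n g : G) (h1 : α ≤ α') (h2 : α' ≤ β') (h3 : β' ≤ β) :
    max α' (min β' (prj Γ α β n g)) = prj Γ α' β' n g := by
  unfold prj
  split_ifs
  · rw [min_self, min_self, max_eq_right (h1.trans (h2.trans h3)), min_eq_left h3]
  · rw [min_eq_right (h1.trans (h2.trans h3)), min_eq_right h2, max_self, max_self,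
      min_eq_right (h1.trans h2), max_eq_left h1]
  · rw [min_max_distrib_left, min_eq_right (h1.trans h2), ← max_assoc, max_eq_left h1,
      ← min_assoc, min_eq_left h3]

theorem prj_inv (α β : ℝ) (h n g : G) : prj Γ α β (h * n) (h * g) = prj Γ α β n g := by
  unfold prj R1.prm
  have e1 : (h * n)⁻¹ * (h * g) = n⁻¹ * g := by
    rw [mul_inv_rev, mul_assoc, inv_mul_cancel_left]
  have e2 : (h * n * Γ.flip)⁻¹ * (h * g) = (n * Γ.flip)⁻¹ * g := by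
    rw [mul_assoc h, mul_inv_rev h, mul_assoc, inv_mul_cancel_left]
  rw [e1, e2]

/-! ### corners of two points of two lines -/

/-- bound of the distance of two points of two lines by the four corners -/
theorem exp_ln_le (n n' : G) (τ τ' : ℝ) : exp (Γ.d (Γ.ln n τ) (Γ.ln n' τ')) ≤
    exp (τ + τ') * br Γ n n' + exp (τ' - τ) * br Γ (n * Γ.flip) n' +
      exp (τ - τ') * br Γ n (n' * Γ.flip) +
      exp (-(τ + τ')) * br Γ (n * Γ.flip) (n' * Γ.flip) := by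
  have h := exp_d_le Γ (Γ.ln n τ) (Γ.ln n' τ')
  rw [br_ln, br_ln_flip, br_ln, br_ln_flip, br_comm Γ n (Γ.ln n' τ'),
    br_comm Γ (n * Γ.flip) (Γ.ln n' τ'), br_comm Γ n (Γ.ln n' τ' * Γ.flip),
    br_comm Γ (n * Γ.flip) (Γ.ln n' τ' * Γ.flip), br_ln, br_ln, br_ln_flip, br_ln_flip,
    br_comm Γ n' n, br_comm Γ n' (n * Γ.flip), br_comm Γ (n' * Γ.flip) n,
    br_comm Γ (n' * Γ.flip) (n * Γ.flip), ← mul_assoc, ← mul_assoc, ← mul_assoc, ← mul_assoc,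
    ← exp_add, ← exp_add, ← exp_add, ← exp_add] at h
  have e1 : -τ + τ' = τ' - τ := by ring
  have e2 : τ + -τ' = τ - τ' := by ring
  have e3 : -τ + -τ' = -(τ + τ') := by ring
  rwa [e1, e2, e3] at h

theorem ln_corner1 (n n' : G) (τ τ' : ℝ) :
    exp (τ + τ') * br Γ n n' ≤ exp (Γ.d (Γ.ln n τ) (Γ.ln n' τ')) := by
  have h := corner1 Γ (Γ.ln n τ) (Γ.ln n' τ')
  rwa [br_ln, br_comm Γ n (Γ.ln n' τ'), br_ln, br_comm Γ n' n, ← mul_assoc, ← exp_add] at h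

theorem ln_corner2 (n n' : G) (τ τ' : ℝ) :
    exp (τ' - τ) * br Γ (n * Γ.flip) n' ≤ exp (Γ.d (Γ.ln n τ) (Γ.ln n' τ')) := by
  have h := corner2 Γ (Γ.ln n τ) (Γ.ln n' τ')
  rw [br_ln_flip, br_comm Γ (n * Γ.flip) (Γ.ln n' τ'), br_ln, br_comm Γ n' (n * Γ.flip),
    ← mul_assoc, ← exp_add] at h
  have e1 : -τ + τ' = τ' - τ := by ring
  rwa [e1] at h

theorem ln_corner3 (n n' : G) (τ τ' : ℝ) :
    exp (τ - τ') * br Γ n (n' * Γ.flip) ≤ exp (Γ.d (Γ.ln n τ) (Γ.ln n' τ')) := by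
  have h := corner3 Γ (Γ.ln n τ) (Γ.ln n' τ')
  rw [br_ln, br_comm Γ n (Γ.ln n' τ' * Γ.flip), br_ln_flip, br_comm Γ (n' * Γ.flip) n,
    ← mul_assoc, ← exp_add] at h
  have e1 : τ + -τ' = τ - τ' := by ring
  rwa [e1] at h

theorem ln_corner4 (n n' : G) (τ τ' : ℝ) :
    exp (-(τ + τ')) * br Γ (n * Γ.flip) (n' * Γ.flip) ≤
      exp (Γ.d (Γ.ln n τ) (Γ.ln n' τ')) := by
  have h := corner4 Γ (Γ.ln n τ) (Γ.ln n' τ')
  rw [br_ln_flip, br_comm Γ (n * Γ.flip) (Γ.ln n' τ' * Γ.flip), br_ln_flip,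
    br_comm Γ (n' * Γ.flip) (n * Γ.flip), ← mul_assoc, ← exp_add] at h
  have e1 : -τ + -τ' = -(τ + τ') := by ring
  rwa [e1] at h

/-- two lines through close points -/
theorem comp {n n' : G} {α α' a x y C : ℝ} (h : Γ.d (Γ.ln n α) (Γ.ln n' α') ≤ C) (ha : 0 ≤ a)
    (hxy : 2 * a ≤ x + y + C - Γ.d (Γ.ln n (α + x)) (Γ.ln n' (α' + y))) :
    Γ.d (Γ.ln n (α + a)) (Γ.ln n' (α' + a)) ≤ C + 3 := by
  have n3 := exp_ln_le Γ n n' (α + a) (α' + a)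
  have hC := exp_le_exp.2 h
  have c2 := (ln_corner2 Γ n n' α α').trans hC
  have c3 := (ln_corner3 Γ n n' α α').trans hC
  have c4 := (ln_corner4 Γ n n' α α').trans hC
  have c1 := ln_corner1 Γ n n' (α + x) (α' + y)
  have k1 : α' + a - (α + a) = α' - α := by ring
  have k2 : α + a - (α' + a) = α - α' := by ring
  rw [k1, k2] at n3
  have k3 : exp (-(α + a + (α' + a))) ≤ exp (-(α + α')) := exp_le_exp.2 (by linarith)
  have k5 := mul_le_mul_of_nonneg_right k3 (br_nonneg Γ (n * Γ.flip) (n' * Γ.flip))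
  have k6 : exp (α + a + (α' + a)) * br Γ n n' ≤ exp C := by
    have e1 : exp (α + a + (α' + a)) = exp (2 * a - x - y) * exp (α + x + (α' + y)) := by
      rw [← exp_add]
      congr 1
      ring
    rw [e1, mul_assoc]
    refine (mul_le_mul_of_nonneg_left c1 (exp_pos _).le).trans ?_
    rw [← exp_add]
    exact exp_le_exp.2 (by linarith)
  have h4 : exp (Γ.d (Γ.ln n (α + a)) (Γ.ln n' (α' + a))) ≤ 4 * exp C := by linarith
  have h5 : (4 : ℝ) ≤ exp 3 := by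
    have := add_one_le_exp (3 : ℝ)
    linarith
  have h6 := mul_le_mul_of_nonneg_right h5 (exp_pos C).le
  rw [← exp_le_exp, exp_add]
  linarith

theorem centre : ∃ K₀ : ℝ, ∀ (s t u n₁ n₂ n₃ : G), Γ.d (Γ.ln n₁ 0) s ≤ 1 →
    Γ.d (Γ.ln n₁ (Γ.d s t)) t ≤ 1 → Γ.d (Γ.ln n₂ 0) t ≤ 1 → Γ.d (Γ.ln n₂ (Γ.d t u)) u ≤ 1 →
    Γ.d (Γ.ln n₃ 0) u ≤ 1 → Γ.d (Γ.ln n₃ (Γ.d u s)) s ≤ 1 →
    ∃ (o : G) (a b c : ℝ), 0 ≤ a ∧ a ≤ Γ.d s t ∧ 0 ≤ b ∧ b ≤ Γ.d t u ∧ 0 ≤ c ∧ c ≤ Γ.d u s ∧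
      Γ.d o (Γ.ln n₁ a) ≤ K₀ ∧ Γ.d o (Γ.ln n₂ b) ≤ K₀ ∧ Γ.d o (Γ.ln n₃ c) ≤ K₀ := by
  refine ⟨5, fun s t u n₁ n₂ n₃ h1 h1' h2 h2' h3 h3' => ?_⟩
  have t1 := d_tri Γ s t u
  have t2 := d_tri Γ t u s
  have t3 := d_tri Γ u s t
  rw [d_comm Γ s u] at t1
  rw [d_comm Γ t s] at t2
  rw [d_comm Γ u t] at t3
  -- the second lines are reversed
  have key : ∀ (n n' : G) (p q r : G) (a : ℝ), Γ.d (Γ.ln n 0) p ≤ 1 → Γ.d (Γ.ln n (Γ.d p q)) q ≤ 1 →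
      Γ.d (Γ.ln n' 0) r ≤ 1 → Γ.d (Γ.ln n' (Γ.d r p)) p ≤ 1 → 0 ≤ a →
      2 * a = Γ.d p q + Γ.d r p - Γ.d q r → Γ.d (Γ.ln n a) (Γ.ln n' (Γ.d r p - a)) ≤ 5 := by
    intro n n' p q r a k1 k2 k3 k4 ha h2a
    have fl : ∀ τ x, Γ.d x (Γ.ln (n' * Γ.flip) τ) ≤ Γ.d x (Γ.ln n' (-τ)) := by
      intro τ x
      have e := ln_flip Γ n' τ
      have e2 := d_tri Γ x (Γ.ln n' (-τ)) (Γ.ln (n' * Γ.flip) τ)
      rw [d_comm Γ (Γ.ln n' (-τ)), e, add_zero] at e2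
      exact e2
    have hc := comp Γ (n := n) (n' := n' * Γ.flip) (α := 0) (α' := -(Γ.d r p)) (a := a)
      (x := Γ.d p q) (y := Γ.d r p) (C := 2) ?_ ha ?_
    · have e := ln_flip Γ n' (-(Γ.d r p) + a)
      have e2 := d_tri Γ (Γ.ln n a) (Γ.ln (n' * Γ.flip) (-(Γ.d r p) + a)) (Γ.ln n' (Γ.d r p - a))
      have e3 : -(-(Γ.d r p) + a) = Γ.d r p - a := by ring
      rw [e3] at e
      rw [zero_add] at hc
      linarith
    · refine (fl _ _).trans ?_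
      rw [neg_neg]
      have e2 := d_tri Γ (Γ.ln n 0) p (Γ.ln n' (Γ.d r p))
      rw [d_comm Γ p (Γ.ln n' (Γ.d r p))] at e2
      linarith
    · rw [zero_add, neg_add_cancel]
      have e1 := fl 0 (Γ.ln n (Γ.d p q))
      rw [neg_zero] at e1
      have e2 := d_tri Γ (Γ.ln n (Γ.d p q)) q (Γ.ln n' 0)
      have e3 := d_tri Γ q r (Γ.ln n' 0)
      rw [d_comm Γ r (Γ.ln n' 0)] at e3
      linarith
  refine ⟨Γ.ln n₁ ((Γ.d s t + Γ.d u s - Γ.d t u) / 2), (Γ.d s t + Γ.d u s - Γ.d t u) / 2,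
    (Γ.d s t + Γ.d t u - Γ.d u s) / 2, (Γ.d t u + Γ.d u s - Γ.d s t) / 2,
    by linarith, by linarith, by linarith, by linarith, by linarith, by linarith,
    by rw [d_self]; norm_num, ?_, ?_⟩
  · have h := key n₂ n₁ t u s ((Γ.d s t + Γ.d t u - Γ.d u s) / 2) h2 h2' h1 h1' (by linarith)
      (by ring)
    have e : Γ.d s t - (Γ.d s t + Γ.d t u - Γ.d u s) / 2 =
        (Γ.d s t + Γ.d u s - Γ.d t u) / 2 := by ring
    rw [e, d_comm] at h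
    exact h
  · have h := key n₁ n₃ s t u ((Γ.d s t + Γ.d u s - Γ.d t u) / 2) h1 h1' h3 h3' (by linarith)
      (by ring)
    have e : Γ.d u s - (Γ.d s t + Γ.d u s - Γ.d t u) / 2 =
        (Γ.d t u + Γ.d u s - Γ.d s t) / 2 := by ring
    rwa [e] at h

theorem fellow : ∀ C₀ : ℝ, ∃ K₀ : ℝ, ∀ (n n' : G) (α β α' β' : ℝ), α ≤ β → α' ≤ β' →
    Γ.d (Γ.ln n α) (Γ.ln n' α') ≤ C₀ → Γ.d (Γ.ln n β) (Γ.ln n' β') ≤ C₀ →
    ∀ x, 0 ≤ x → α + x ≤ β → α' + x ≤ β' → Γ.d (Γ.ln n (α + x)) (Γ.ln n' (α' + x)) ≤ K₀ := by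
  intro C₀
  refine ⟨C₀ + 3, fun n n' α β α' β' _ _ h1 h2 x hx hb hb' => ?_⟩
  refine comp Γ (x := β - α) (y := β' - α') h1 hx ?_
  rw [add_sub_cancel, add_sub_cancel]
  linarith

end Pool.Agent.Helper53.BR
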