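import Pool.Agent.Helper53.BR.Prj

/-!
# Project BR, block GEO-G: projections to close segments
-/

set_option autoImplicit false

open Real

namespace Pool.Agent.Helper53.BR

open Pool.Agent.Helper11.BR
open Pool.Agent.H99.BR

variable {G : Type} [Group G] [TopologicalSpace G] (Γ : R1 G)

/-- the Busemann function of the end of `g` along the line of `n` -/
noncomputable def bus (n : G) (τ : ℝ) (g : G) : ℝ := log (nx Γ (Γ.ln n τ) g)

theorem bus_lip (n n' : G) (τ τ' : ℝ) (g : G) :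
    |bus Γ n τ g - bus Γ n' τ' g| ≤ Γ.d (Γ.ln n τ) (Γ.ln n' τ') := by
  have key : ∀ x y : G, log (nx Γ x g) ≤ log (nx Γ y g) + Γ.d x y := by
    intro x y
    have h := log_le_log (nx_pos Γ x g) (nx_le_exp Γ x y g)
    rw [log_mul (exp_pos _).ne' (nx_pos Γ y g).ne', log_exp] at h
    linarith
  have h1 := key (Γ.ln n τ) (Γ.ln n' τ')
  have h2 := key (Γ.ln n' τ') (Γ.ln n τ)
  rw [d_comm Γ (Γ.ln n' τ')] at h2
  unfold bus
  rw [abs_le]
  constructor <;> linarith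

private theorem log2 : log 2 ≤ 1 := by
  have := Real.log_two_lt_d9
  linarith

/-- the Busemann function beyond the projection -/
theorem bus_behind {n g : G} {τ : ℝ} (h : Γ.Behind n τ g) :
    τ + log (br Γ n g) ≤ bus Γ n τ g ∧ bus Γ n τ g ≤ τ + log (br Γ n g) + 1 := by
  have hp := behind_pos Γ h
  have h1 := br_le Γ (Γ.ln n τ) g
  have h2 := nx_le Γ (Γ.ln n τ) g
  rw [br_ln] at h1
  rw [br_ln, br_ln_flip] at h2
  rw [behind_iff] at h
  have h3 : exp (-τ) * br Γ (n * Γ.flip) g ≤ exp τ * br Γ n g := by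
    have h4 := mul_le_mul_of_nonneg_left h (exp_pos (-τ)).le
    rw [← mul_assoc (exp (-τ)) (exp (2 * τ)), ← exp_add] at h4
    have e : -τ + 2 * τ = τ := by ring
    rwa [e] at h4
  have e1 : τ + log (br Γ n g) = log (exp τ * br Γ n g) := by
    rw [log_mul (exp_pos _).ne' hp.ne', log_exp]
  have hq : 0 < exp τ * br Γ n g := mul_pos (exp_pos _) hp
  rw [e1]
  unfold bus
  refine ⟨log_le_log hq h1, ?_⟩
  have h5 := log_le_log (nx_pos Γ _ _) (h2.trans (by linarith : _ ≤ 2 * (exp τ * br Γ n g)))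
  rw [log_mul (by norm_num) hq.ne'] at h5
  have := log2
  linarith

/-- the Busemann function before the projection -/
theorem bus_ahead {n g : G} {τ : ℝ} (h : Γ.Ahead n τ g) :
    -τ + log (br Γ (n * Γ.flip) g) ≤ bus Γ n τ g ∧
      bus Γ n τ g ≤ -τ + log (br Γ (n * Γ.flip) g) + 1 := by
  have hp := ahead_pos Γ h
  have h1 := br_flip_le Γ (Γ.ln n τ) g
  have h2 := nx_le Γ (Γ.ln n τ) g
  rw [br_ln_flip] at h1
  rw [br_ln, br_ln_flip] at h2
  rw [ahead_iff] at h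
  have h3 : exp τ * br Γ n g ≤ exp (-τ) * br Γ (n * Γ.flip) g := by
    have h4 := mul_le_mul_of_nonneg_left h (exp_pos (-τ)).le
    rw [← mul_assoc (exp (-τ)) (exp (2 * τ)), ← exp_add] at h4
    have e : -τ + 2 * τ = τ := by ring
    rwa [e] at h4
  have e1 : -τ + log (br Γ (n * Γ.flip) g) = log (exp (-τ) * br Γ (n * Γ.flip) g) := by
    rw [log_mul (exp_pos _).ne' hp.ne', log_exp]
  have hq : 0 < exp (-τ) * br Γ (n * Γ.flip) g := mul_pos (exp_pos _) hp
  rw [e1]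
  unfold bus
  refine ⟨log_le_log hq h1, ?_⟩
  have h5 := log_le_log (nx_pos Γ _ _)
    (h2.trans (by linarith : _ ≤ 2 * (exp (-τ) * br Γ (n * Γ.flip) g)))
  rw [log_mul (by norm_num) hq.ne'] at h5
  have := log2
  linarith

/-- the projection parameter in terms of the Busemann function -/
theorem bus_prj {n g : G} {α β p : ℝ} (hα : α ≤ p) (hβ : p ≤ β) (ha : α < p → Γ.Ahead n p g)
    (hb : p < β → Γ.Behind n p g) :
    |(β - α) - (bus Γ n β g - bus Γ n α g) - 2 * (p - α)| ≤ 1 := by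
  rcases hα.eq_or_lt with rfl | hα'
  · rcases hβ.eq_or_lt with rfl | hβ'
    · simp
    · obtain ⟨k1, k2⟩ := bus_behind Γ (hb hβ')
      obtain ⟨k3, k4⟩ := bus_behind Γ (behind_mono Γ hβ (hb hβ'))
      rw [abs_le]
      constructor <;> linarith
  · have h := ha hα'
    obtain ⟨k1, k2⟩ := bus_ahead Γ (ahead_mono Γ hα h)
    rcases hβ.eq_or_lt with rfl | hβ'
    · obtain ⟨k3, k4⟩ := bus_ahead Γ h
      rw [abs_le]
      constructor <;> linarith
    · have h' := hb hβ'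
      obtain ⟨k3, k4⟩ := bus_behind Γ (behind_mono Γ hβ h')
      have e : br Γ (n * Γ.flip) g = exp (2 * p) * br Γ n g := le_antisymm h' h
      have e2 : log (br Γ (n * Γ.flip) g) = 2 * p + log (br Γ n g) := by
        rw [e, log_mul (exp_pos _).ne' (behind_pos Γ h').ne', log_exp]
      rw [abs_le]
      constructor <;> linarith

/-- comparison of the projections to two segments with close ends -/
theorem prj_close_aux {n n' g : G} {α β p α' β' p' C₀ : ℝ}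
    (h1 : Γ.d (Γ.ln n α) (Γ.ln n' α') ≤ C₀)
    (h2 : Γ.d (Γ.ln n β) (Γ.ln n' β') ≤ C₀) (hα : α ≤ p) (hβ : p ≤ β)
    (ha : α < p → Γ.Ahead n p g) (hb : p < β → Γ.Behind n p g) (hα' : α' ≤ p') (hβ' : p' ≤ β')
    (ha' : α' < p' → Γ.Ahead n' p' g) (hb' : p' < β' → Γ.Behind n' p' g) :
    |p + (α' - α) - p'| ≤ 2 * C₀ + 1 := by
  have e1 := abs_le.1 (bus_prj Γ hα hβ ha hb)
  have e2 := abs_le.1 (bus_prj Γ hα' hβ' ha' hb')
  have e3 := abs_le.1 ((bus_lip Γ n n' α α' g).trans h1)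
  have e4 := abs_le.1 ((bus_lip Γ n n' β β' g).trans h2)
  have l1 := ln_dist Γ n α β
  have l2 := ln_dist Γ n' α' β'
  rw [abs_sub_comm, abs_of_nonneg (by linarith)] at l1 l2
  have t1 := d_tri Γ (Γ.ln n α) (Γ.ln n' α') (Γ.ln n β)
  have t2 := d_tri Γ (Γ.ln n' α') (Γ.ln n' β') (Γ.ln n β)
  have t3 := d_tri Γ (Γ.ln n' α') (Γ.ln n α) (Γ.ln n' β')
  have t4 := d_tri Γ (Γ.ln n α) (Γ.ln n β) (Γ.ln n' β')
  rw [d_comm Γ (Γ.ln n' β')] at t2
  rw [d_comm Γ (Γ.ln n' α') (Γ.ln n α)] at t3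
  rw [abs_le]
  constructor <;> linarith

theorem prj_close : ∀ C₀ : ℝ, ∃ K₀ : ℝ, ∀ (n n' : G) (α β α' β' : ℝ) (g : G), α ≤ β → α' ≤ β' →
    Γ.d (Γ.ln n α) (Γ.ln n' α') ≤ C₀ → Γ.d (Γ.ln n β) (Γ.ln n' β') ≤ C₀ →
    |prj Γ α β n g + (α' - α) - prj Γ α' β' n' g| ≤ K₀ := by
  intro C₀
  refine ⟨2 * C₀ + 1, fun n n' α β α' β' g h h' h1 h2 => ?_⟩
  obtain ⟨m1, m2⟩ := prj_mem Γ h n g
  obtain ⟨m1', m2'⟩ := prj_mem Γ h' n' g
  exact prj_close_aux Γ h1 h2 m1 m2 (fun k => prj_ahead Γ α β _ n g k le_rfl)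
    (fun k => prj_behind Γ α β _ n g k le_rfl) m1' m2'
    (fun k => prj_ahead Γ α' β' _ n' g k le_rfl) fun k => prj_behind Γ α' β' _ n' g k le_rfl

end Pool.Agent.Helper53.BR
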