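import Pool.Agent.Helper53.BR.Fr
import Pool.Agent.Helper53.BR.Cl

/-!
# Project BR, block GEO-G: the data of the block GLOB
-/

set_option autoImplicit false

open MeasureTheory

namespace Pool.Agent.Helper53.BR

open Pool.Agent.Helper11.BR
open Pool.Agent.Helper59.BR (GlobMeas)

variable {G : Type} [Group G] [TopologicalSpace G]

/-- the data of the block GLOB -/
noncomputable def glob [SecondCountableTopology G] [IsTopologicalGroup G] (Γ : R1 G) :
    GlobGeo Γ where
  prj := prj Γ
  ahead := fun α β b n g h1 _ h3 => prj_ahead Γ α β b n g h1 h3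
  behind := fun α β a n g _ h2 h3 => prj_behind Γ α β a n g h2 h3
  prj_cp := prj_cp Γ
  prj_inv := prj_inv Γ
  prj_close := prj_close Γ
  fellow := fellow Γ
  fr := fr Γ
  fr_mul := fr_mul Γ
  fr_zero := fr_zero Γ
  fr_dist := fr_dist Γ
  centre := centre Γ

/-- block GEO-G -/
theorem globGeo [SecondCountableTopology G] [IsTopologicalGroup G] (Γ : R1 G) :
    Nonempty (GlobGeo Γ) := ⟨glob Γ⟩

/-- block MEAS-GEO -/
theorem glob_meas [SecondCountableTopology G] [IsTopologicalGroup G] [MeasurableSpace G]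
    [BorelSpace G] (Γ : R1 G) : GlobMeas (glob Γ) where
  prj := fun _ _ _ _ _ _ hα hβ hn hh => measurable_prj Γ hα hβ hn hh
  fr := fun _ _ _ _ hs ht => measurable_fr Γ hs ht

/-- block MEAS-GEO -/
theorem globGeo_meas [SecondCountableTopology G] [IsTopologicalGroup G] [MeasurableSpace G]
    [BorelSpace G] (Γ : R1 G) : ∃ g : GlobGeo Γ, GlobMeas g := ⟨glob Γ, glob_meas Γ⟩

end Pool.Agent.Helper53.BR
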