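import Pool.Agent.Helper53.BR.Prj
import Pool.Agent.Helper59.BR.MeasDefs

/-!
# Project BR, block GEO-G: frames
-/

set_option autoImplicit false

open Real MeasureTheory Topology

namespace Pool.Agent.Helper53.BR

open Pool.Agent.Helper11.BR
open Pool.Agent.H99.BR

variable {G : Type} [Group G] [TopologicalSpace G] (Γ : R1 G)

/-- the stabilizer of the base point -/
def KK : Type := {k : G // Γ.rho k = 0}

instance : TopologicalSpace (KK Γ) := instTopologicalSpaceSubtype

instance : Nonempty (KK Γ) := ⟨⟨1, Γ.rho_one⟩⟩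

instance [SecondCountableTopology G] : SecondCountableTopology (KK Γ) :=
  TopologicalSpace.Subtype.secondCountableTopology {k : G | Γ.rho k = 0}

/-- a dense sequence in the stabilizer of the base point -/
noncomputable def ks [SecondCountableTopology G] (j : ℕ) : G :=
  (TopologicalSpace.denseSeq (KK Γ) j).1

theorem ks_rho [SecondCountableTopology G] (j : ℕ) : Γ.rho (ks Γ j) = 0 :=
  (TopologicalSpace.denseSeq (KK Γ) j).2

theorem exists_ks [SecondCountableTopology G] [IsTopologicalGroup G] (g : G) :
    ∃ j : ℕ, Γ.rho (g⁻¹ * (ks Γ j * Γ.dg (Γ.rho g))) ≤ 1 := by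
  obtain ⟨k, hk, hk'⟩ := Γ.polar g
  have hc : Continuous fun q : KK Γ => Γ.rho (g⁻¹ * (q.1 * Γ.dg (Γ.rho g))) := by
    refine Γ.rho_cont.comp ?_
    exact continuous_const.mul (continuous_subtype_val.mul continuous_const)
  have ho : IsOpen {q : KK Γ | Γ.rho (g⁻¹ * (q.1 * Γ.dg (Γ.rho g))) < 1} :=
    isOpen_lt hc continuous_const
  obtain ⟨j, hj⟩ := (TopologicalSpace.denseRange_denseSeq (KK Γ)).exists_mem_open ho
    ⟨⟨k, hk⟩, by
      show Γ.rho (g⁻¹ * (k * Γ.dg (Γ.rho g))) < 1
      rw [hk']
      exact zero_lt_one⟩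
  exact ⟨j, le_of_lt hj⟩

open Classical in
/-- the least index of an element of the sequence which points to `g` -/
noncomputable def ix [SecondCountableTopology G] [IsTopologicalGroup G] (g : G) : ℕ :=
  Nat.find (exists_ks Γ g)

theorem ix_spec [SecondCountableTopology G] [IsTopologicalGroup G] (g : G) :
    Γ.rho (g⁻¹ * (ks Γ (ix Γ g) * Γ.dg (Γ.rho g))) ≤ 1 := by
  classical
  unfold ix
  exact Nat.find_spec (exists_ks Γ g)

/-- the frame of the line from `s` to `t` -/
noncomputable def fr [SecondCountableTopology G] [IsTopologicalGroup G] (s t : G) : G :=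
  s * ks Γ (ix Γ (s⁻¹ * t))

theorem fr_mul [SecondCountableTopology G] [IsTopologicalGroup G] (h s t : G) :
    fr Γ (h * s) (h * t) = h * fr Γ s t := by
  unfold fr
  have e : (h * s)⁻¹ * (h * t) = s⁻¹ * t := by
    rw [mul_inv_rev, mul_assoc, inv_mul_cancel_left]
  rw [e, mul_assoc]

theorem fr_zero [SecondCountableTopology G] [IsTopologicalGroup G] (s t : G) :
    Γ.d (Γ.ln (fr Γ s t) 0) s = 0 := by
  unfold R1.ln fr R1.d
  rw [dg_zero, mul_one, mul_inv_rev, inv_mul_cancel_right, Γ.rho_inv, ks_rho]

theorem fr_dist [SecondCountableTopology G] [IsTopologicalGroup G] (s t : G) :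
    Γ.d (Γ.ln (fr Γ s t) (Γ.d s t)) t ≤ 1 := by
  rw [d_comm]
  unfold R1.ln fr R1.d
  have h := ix_spec Γ (s⁻¹ * t)
  rwa [mul_inv_rev, inv_inv, mul_assoc, ← mul_assoc s] at h

section Meas

variable [MeasurableSpace G] [BorelSpace G]

theorem measurable_ix [SecondCountableTopology G] [IsTopologicalGroup G] :
    Measurable (ix Γ) := by
  classical
  refine measurable_find (exists_ks Γ) fun j => ?_
  have hc : Continuous fun g : G => Γ.rho (g⁻¹ * (ks Γ j * Γ.dg (Γ.rho g))) := by
    refine Γ.rho_cont.comp ?_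
    exact continuous_inv.mul (continuous_const.mul (Γ.dg_cont.comp Γ.rho_cont))
  exact (isClosed_le hc continuous_const).measurableSet

theorem measurable_fr [SecondCountableTopology G] [IsTopologicalGroup G] {Z : Type}
    [MeasurableSpace Z] {s t : Z → G} (hs : Measurable s) (ht : Measurable t) :
    Measurable fun z => fr Γ (s z) (t z) := by
  unfold fr
  have h1 : Measurable fun z => ix Γ ((s z)⁻¹ * t z) :=
    (measurable_ix Γ).comp (hs.inv.mul ht)
  have h2 : Measurable (ks Γ) := measurable_from_top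
  exact hs.mul (h2.comp h1)

open Classical in
theorem measurable_prj [SecondCountableTopology G] [IsTopologicalGroup G] {Z : Type}
    [MeasurableSpace Z] {α β : Z → ℝ} {n h : Z → G} (hα : Measurable α) (hβ : Measurable β)
    (hn : Measurable n) (hh : Measurable h) :
    Measurable fun z => prj Γ (α z) (β z) (n z) (h z) := by
  have h1 : Measurable fun z => Γ.gam ((n z)⁻¹ * h z) :=
    Γ.gam_cont.measurable.comp (hn.inv.mul hh)
  have h2 : Measurable fun z => Γ.gam ((n z * Γ.flip)⁻¹ * h z) :=
    Γ.gam_cont.measurable.comp ((hn.mul_const _).inv.mul hh)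
  unfold prj R1.prm
  refine hα.max (hβ.min ?_)
  refine Measurable.ite (measurableSet_eq_fun h1 measurable_const) hβ ?_
  refine Measurable.ite (measurableSet_eq_fun h2 measurable_const) hα ?_
  exact (h2.div h1).log.div_const _

end Meas

end Pool.Agent.Helper53.BR
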